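import Mathlib

/-!
# The Fourier transform of `1 / (1 + x ^ 2)`
-/

set_option autoImplicit false

open MeasureTheory Set Filter Topology

open scoped FourierTransform

namespace Pool.Agent.N13.PF

lemma integrable_abs : Integrable (fun x : ℝ => (Real.exp (-|x|) : ℂ)) := by
  have h : Integrable (fun x : ℝ => Real.exp (-|x|)) := by
    rw [← integrableOn_univ, ← Iic_union_Ioi (a := (0 : ℝ)), integrableOn_union]
    constructor
    · refine (integrableOn_congr_fun (g := fun x : ℝ => Real.exp (1 * x)) (fun x hx => ?_) measurableSet_Iic).2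
        (integrableOn_exp_mul_Iic one_pos 0)
      simp only
      rw [abs_of_nonpos hx, neg_neg, one_mul]
    · refine (integrableOn_congr_fun (g := fun x : ℝ => Real.exp (-x)) (fun x hx => ?_) measurableSet_Ioi).2
        (integrableOn_exp_neg_Ioi 0)
      simp only
      rw [abs_of_pos hx]
  exact h.ofReal

lemma four_abs (w : ℝ) : 𝓕 (fun x : ℝ => (Real.exp (-|x|) : ℂ)) w = ((2 / (1 + (2 * Real.pi * w) ^ 2) : ℝ) : ℂ) := by
  rw [Real.fourier_real_eq_integral_exp_smul]
  have hI : Integrable (fun v : ℝ => Complex.exp (((-2 * Real.pi * v * w : ℝ) : ℂ) * Complex.I) • (Real.exp (-|v|) : ℂ)) := by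
    refine integrable_abs.bdd_mul (c := 1) ?_ ?_
    · apply Continuous.aestronglyMeasurable
      fun_prop
    · refine Eventually.of_forall fun v => ?_
      rw [Complex.norm_exp_ofReal_mul_I]
  rw [← setIntegral_univ, ← Iic_union_Ioi (a := (0 : ℝ)), setIntegral_union (Iic_disjoint_Ioi le_rfl) measurableSet_Ioi
    hI.integrableOn hI.integrableOn]
  have h1 : ∫ v in Iic (0 : ℝ), Complex.exp (((-2 * Real.pi * v * w : ℝ) : ℂ) * Complex.I) • (Real.exp (-|v|) : ℂ) =
      1 / (1 - 2 * Real.pi * w * Complex.I) := by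
    have := integral_exp_mul_complex_Iic (a := 1 - 2 * Real.pi * w * Complex.I) (by simp) 0
    rw [Complex.ofReal_zero, mul_zero, Complex.exp_zero] at this
    rw [← this]
    refine setIntegral_congr_fun measurableSet_Iic fun v hv => ?_
    simp only [smul_eq_mul]
    rw [abs_of_nonpos hv, neg_neg, Complex.ofReal_exp, ← Complex.exp_add]
    congr 1
    push_cast
    ring
  have h2 : ∫ v in Ioi (0 : ℝ), Complex.exp (((-2 * Real.pi * v * w : ℝ) : ℂ) * Complex.I) • (Real.exp (-|v|) : ℂ) =
      1 / (1 + 2 * Real.pi * w * Complex.I) := by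
    have := integral_exp_mul_complex_Ioi (a := -(1 + 2 * Real.pi * w * Complex.I)) (by simp) 0
    rw [Complex.ofReal_zero, mul_zero, Complex.exp_zero, neg_div_neg_eq] at this
    rw [← this]
    refine setIntegral_congr_fun measurableSet_Ioi fun v hv => ?_
    simp only [smul_eq_mul]
    rw [abs_of_pos hv, Complex.ofReal_exp, ← Complex.exp_add]
    congr 1
    push_cast
    ring
  rw [h1, h2]
  have e1 : (1 - 2 * Real.pi * w * Complex.I : ℂ) ≠ 0 := by
    intro h
    have := congrArg Complex.re h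
    simp at this
  have e2 : (1 + 2 * Real.pi * w * Complex.I : ℂ) ≠ 0 := by
    intro h
    have := congrArg Complex.re h
    simp at this
  have e3 : ((1 + (2 * Real.pi * w) ^ 2 : ℝ) : ℂ) = (1 - 2 * Real.pi * w * Complex.I) * (1 + 2 * Real.pi * w * Complex.I) := by
    push_cast
    ring_nf
    rw [Complex.I_sq]
    ring
  rw [Complex.ofReal_div, e3]
  push_cast
  field_simp
  ring

lemma integrable_inv : Integrable (fun x : ℝ => (2 / (1 + (2 * Real.pi * x) ^ 2) : ℝ)) := by
  have h1 : Integrable (fun x : ℝ => (1 + x ^ 2)⁻¹) := integrable_inv_one_add_sq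
  have h2 := (h1.comp_mul_left' (R := 2 * Real.pi) (by positivity)).const_mul 2
  refine h2.congr (Eventually.of_forall fun x => ?_)
  simp only
  rw [div_eq_mul_inv]

/-- the Fourier integral of `1 / (1 + x ^ 2)` -/
theorem int_exp (y : ℝ) : ∫ x : ℝ, Complex.exp (((y * x : ℝ) : ℂ) * Complex.I) * ((1 / (1 + x ^ 2) : ℝ) : ℂ) =
    ((Real.pi * Real.exp (-|y|) : ℝ) : ℂ) := by
  have hc : Continuous (fun x : ℝ => (Real.exp (-|x|) : ℂ)) := by fun_prop
  have h4 : 𝓕 (fun x : ℝ => (Real.exp (-|x|) : ℂ)) = fun w : ℝ => ((2 / (1 + (2 * Real.pi * w) ^ 2) : ℝ) : ℂ) :=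
    funext four_abs
  have h := congrFun (hc.fourierInv_fourier_eq integrable_abs (by rw [h4]; exact integrable_inv.ofReal)) y
  rw [h4, Real.fourierInv_eq'] at h
  simp only [smul_eq_mul] at h
  have h5 := Measure.integral_comp_mul_left
    (fun x : ℝ => Complex.exp (((y * x : ℝ) : ℂ) * Complex.I) * ((1 / (1 + x ^ 2) : ℝ) : ℂ)) (2 * Real.pi)
  rw [abs_of_pos (by positivity : (0 : ℝ) < (2 * Real.pi)⁻¹)] at h5
  have h6 : ∀ v : ℝ, Complex.exp (((2 * Real.pi * (inner ℝ v y) : ℝ) : ℂ) * Complex.I) *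
      ((2 / (1 + (2 * Real.pi * v) ^ 2) : ℝ) : ℂ) =
      2 * (Complex.exp (((y * (2 * Real.pi * v) : ℝ) : ℂ) * Complex.I) * ((1 / (1 + (2 * Real.pi * v) ^ 2) : ℝ) : ℂ)) := by
    intro v
    have e1 : 2 * Real.pi * (inner ℝ v y) = y * (2 * Real.pi * v) := by
      rw [real_inner_eq_re_inner, RCLike.inner_apply]
      simp
      ring
    rw [e1]
    push_cast
    ring
  simp only [h6] at h
  rw [integral_const_mul, h5, Complex.real_smul] at h
  have hpi : (Real.pi : ℂ) ≠ 0 := by exact_mod_cast Real.pi_ne_zero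
  have h7 : (2 : ℂ) * (((2 * Real.pi)⁻¹ : ℝ) : ℂ) = (Real.pi : ℂ)⁻¹ := by
    push_cast
    field_simp
  rw [← mul_assoc, h7, inv_mul_eq_iff_eq_mul₀ hpi] at h
  rw [h]
  push_cast
  rfl

/-- the real form -/
theorem int_cos (y : ℝ) : ∫ x : ℝ, Real.cos (y * x) / (1 + x ^ 2) = Real.pi * Real.exp (-|y|) := by
  have h := congrArg Complex.re (int_exp y)
  rw [Complex.ofReal_re] at h
  rw [← h]
  have hI : Integrable (fun x : ℝ => Complex.exp (((y * x : ℝ) : ℂ) * Complex.I) * ((1 / (1 + x ^ 2) : ℝ) : ℂ)) := by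
    have h1 : Integrable (fun x : ℝ => ((1 / (1 + x ^ 2) : ℝ) : ℂ)) := by
      have h0 : Integrable (fun x : ℝ => (1 / (1 + x ^ 2) : ℝ)) := by
        refine integrable_inv_one_add_sq.congr (Eventually.of_forall fun x => ?_)
        exact (one_div _).symm
      exact h0.ofReal
    refine h1.bdd_mul (c := 1) ?_ ?_
    · apply Continuous.aestronglyMeasurable
      fun_prop
    · refine Eventually.of_forall fun v => ?_
      rw [Complex.norm_exp_ofReal_mul_I]
  have h2 := integral_re hI
  simp only [RCLike.re_to_complex] at h2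
  rw [← h2]
  refine integral_congr_ae (Eventually.of_forall fun x => ?_)
  simp only
  rw [Complex.re_mul_ofReal, Complex.exp_ofReal_mul_I_re]
  ring

end Pool.Agent.N13.PF
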