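import Pool.Agent.N13.PF.Four
import Pool.Agent.N13.SI.Int

/-!
# The truncated Fourier integrals
-/

set_option autoImplicit false

open MeasureTheory Set Filter Topology

namespace Pool.Agent.N13.PF

open Pool.Agent.N902.EW

/-- the truncated Fourier integral -/
noncomputable def P (y φ : ℝ) : ℝ := ∫ x in {x : ℝ | |Real.arctan x| < φ}, Real.cos (y * x) / (1 + x ^ 2)

lemma set_full : {x : ℝ | |Real.arctan x| < Real.pi / 2} = univ := by
  refine eq_univ_of_forall fun x => ?_
  rw [mem_ofPred_eq, abs_lt]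
  exact ⟨Real.neg_pi_div_two_lt_arctan x, Real.arctan_lt_pi_div_two x⟩

lemma P_full (y : ℝ) (hy : 0 ≤ y) : P y (Real.pi / 2) = Real.pi * Real.exp (-y) := by
  rw [P, set_full, setIntegral_univ, int_cos, abs_of_nonneg hy]

lemma set_part {φ : ℝ} (h0 : 0 < φ) (h1 : φ < Real.pi / 2) :
    {x : ℝ | |Real.arctan x| < φ} = Ioo (-Real.tan φ) (Real.tan φ) := by
  ext x
  rw [mem_ofPred_eq, abs_lt, mem_Ioo, ← Real.arctan_strictMono.lt_iff_lt (a := -Real.tan φ),
    ← Real.arctan_strictMono.lt_iff_lt (b := Real.tan φ), Real.arctan_neg, Real.arctan_tan (by linarith) h1]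

lemma tan_pos {φ : ℝ} (h0 : 0 < φ) (h1 : φ < Real.pi / 2) : 0 < Real.tan φ :=
  Real.tan_pos_of_pos_of_lt_pi_div_two h0 h1

lemma cont_f (y : ℝ) : Continuous (fun x : ℝ => Real.cos (y * x) / (1 + x ^ 2)) := by
  refine Continuous.div (by fun_prop) (by fun_prop) fun x => ?_
  positivity

lemma P_part (y : ℝ) {φ : ℝ} (h0 : 0 < φ) (h1 : φ < Real.pi / 2) :
    P y φ = 2 * ∫ x in (0 : ℝ)..Real.tan φ, Real.cos (y * x) / (1 + x ^ 2) := by
  have hT := tan_pos h0 h1
  rw [P, set_part h0 h1, ← integral_Ioc_eq_integral_Ioo, ← intervalIntegral.integral_of_le (by linarith),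
    ← intervalIntegral.integral_add_adjacent_intervals ((cont_f y).intervalIntegrable _ 0) ((cont_f y).intervalIntegrable 0 _)]
  have h2 : ∫ x in (-Real.tan φ)..0, Real.cos (y * x) / (1 + x ^ 2) = ∫ x in (0 : ℝ)..Real.tan φ, Real.cos (y * x) / (1 + x ^ 2) := by
    have := intervalIntegral.integral_comp_neg (a := 0) (b := Real.tan φ) (fun x : ℝ => Real.cos (y * x) / (1 + x ^ 2))
    rw [neg_zero] at this
    rw [← this]
    refine intervalIntegral.integral_congr fun x _ => ?_
    show Real.cos (y * -x) / (1 + (-x) ^ 2) = Real.cos (y * x) / (1 + x ^ 2)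
    rw [mul_neg, Real.cos_neg, neg_sq]
  rw [h2]
  ring

lemma P_zero_part {φ : ℝ} (h0 : 0 < φ) (h1 : φ < Real.pi / 2) : P 0 φ = 2 * φ := by
  rw [P_part 0 h0 h1]
  congr 1
  have := integral_inv_one_add_sq (a := 0) (b := Real.tan φ)
  rw [Real.arctan_zero, sub_zero, Real.arctan_tan (by linarith) h1] at this
  conv_rhs => rw [← this]
  refine intervalIntegral.integral_congr fun x _ => ?_
  show Real.cos (0 * x) / (1 + x ^ 2) = (1 + x ^ 2)⁻¹
  rw [zero_mul, Real.cos_zero, one_div]

lemma P_zero {φ : ℝ} (h0 : 0 < φ) (h1 : φ ≤ Real.pi / 2) : P 0 φ = 2 * φ := by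
  rcases h1.lt_or_eq with h1 | rfl
  · exact P_zero_part h0 h1
  · rw [P_full 0 le_rfl, neg_zero, Real.exp_zero]
    ring

/-- the inner integral -/
lemma inner_int (c u : ℝ) : ∫ s in (0 : ℝ)..1, c * Real.exp (c * s) * Real.cos (c * u * s) =
    (Real.exp c * (Real.cos (c * u) + u * Real.sin (c * u)) - 1) / (1 + u ^ 2) := by
  have hu : (1 + u ^ 2 : ℝ) ≠ 0 := by positivity
  have hd : ∀ s ∈ uIcc (0 : ℝ) 1, HasDerivAt
      (fun s : ℝ => Real.exp (c * s) * (Real.cos (c * u * s) + u * Real.sin (c * u * s)) / (1 + u ^ 2))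
      (c * Real.exp (c * s) * Real.cos (c * u * s)) s := by
    intro s _
    have d1 : HasDerivAt (fun s : ℝ => Real.exp (c * s)) (Real.exp (c * s) * (c * 1)) s :=
      ((hasDerivAt_id s).const_mul c).exp
    have d2 : HasDerivAt (fun s : ℝ => Real.cos (c * u * s)) (-Real.sin (c * u * s) * (c * u * 1)) s :=
      ((hasDerivAt_id s).const_mul (c * u)).cos
    have d3 : HasDerivAt (fun s : ℝ => Real.sin (c * u * s)) (Real.cos (c * u * s) * (c * u * 1)) s :=
      ((hasDerivAt_id s).const_mul (c * u)).sin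
    have d4 := (d1.mul (d2.add (d3.const_mul u))).div_const (1 + u ^ 2)
    refine d4.congr_deriv ?_
    simp only [Pi.add_apply]
    field_simp
    ring
  rw [intervalIntegral.integral_eq_sub_of_hasDerivAt hd]
  · simp only [mul_one, mul_zero, Real.exp_zero, Real.cos_zero, Real.sin_zero]
    ring
  · exact Continuous.intervalIntegrable (by fun_prop) _ _

/-- the integral of the exponential times the sine -/
noncomputable def K (c T : ℝ) : ℝ := ∫ s in (0 : ℝ)..1, Real.exp (c * s) * Real.sin (c * T * s) / s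

lemma K_eq (c T : ℝ) : K c T = ∫ u in (0 : ℝ)..T, (Real.exp c * (Real.cos (c * u) + u * Real.sin (c * u)) - 1) / (1 + u ^ 2) := by
  have h1 : ∫ s in (0 : ℝ)..1, ∫ u in (0 : ℝ)..T, c * Real.exp (c * s) * Real.cos (c * u * s) =
      ∫ u in (0 : ℝ)..T, ∫ s in (0 : ℝ)..1, c * Real.exp (c * s) * Real.cos (c * u * s) := by
    refine intervalIntegral_intervalIntegral_swap ?_
    have hc : Continuous (Function.uncurry fun s u : ℝ => c * Real.exp (c * s) * Real.cos (c * u * s)) := by
      unfold Function.uncurry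
      fun_prop
    refine (hc.continuousOn.integrableOn_compact (isCompact_uIcc.prod isCompact_uIcc)).mono_set
      (prod_mono uIoc_subset_uIcc uIoc_subset_uIcc)
  simp only [inner_int] at h1
  rw [← h1, K]
  refine intervalIntegral.integral_congr_ae ?_
  have h0 : ∀ᵐ t : ℝ, t ≠ 0 := by simp [ae_iff, measure_singleton]
  filter_upwards [h0] with s hs _
  have hd : ∀ u ∈ uIcc (0 : ℝ) T, HasDerivAt (fun u : ℝ => Real.exp (c * s) * Real.sin (c * u * s) / s)
      (c * Real.exp (c * s) * Real.cos (c * u * s)) u := by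
    intro u _
    have d2 : HasDerivAt (fun u : ℝ => c * u * s) (c * 1 * s) u := ((hasDerivAt_id u).const_mul c).mul_const s
    have d3 := ((d2.sin).const_mul (Real.exp (c * s))).div_const s
    refine d3.congr_deriv ?_
    field_simp
  rw [intervalIntegral.integral_eq_sub_of_hasDerivAt hd]
  · simp only [mul_zero, zero_mul, Real.sin_zero, zero_div, sub_zero]
  · exact Continuous.intervalIntegrable (by fun_prop) _ _

/-- the formula -/
theorem P_formula (y : ℝ) {φ : ℝ} (h0 : 0 < φ) (h1 : φ < Real.pi / 2) :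
    P y φ = (Real.exp y + Real.exp (-y)) * φ + Real.exp (-y) * K y (Real.tan φ) + Real.exp y * K (-y) (Real.tan φ) := by
  set T := Real.tan φ with hT
  have hi : ∀ c : ℝ, IntervalIntegrable (fun u => (Real.exp c * (Real.cos (c * u) + u * Real.sin (c * u)) - 1) / (1 + u ^ 2))
      volume 0 T := fun c => by
    refine Continuous.intervalIntegrable ?_ _ _
    refine Continuous.div (by fun_prop) (by fun_prop) fun x => ?_
    positivity
  have h2 : (Real.exp y + Real.exp (-y)) * φ = ∫ u in (0 : ℝ)..T, (Real.exp y + Real.exp (-y)) * (1 + u ^ 2)⁻¹ := by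
    rw [intervalIntegral.integral_const_mul, integral_inv_one_add_sq, Real.arctan_zero, sub_zero, hT,
      Real.arctan_tan (by linarith) h1]
  have hii : IntervalIntegrable (fun u : ℝ => (Real.exp y + Real.exp (-y)) * (1 + u ^ 2)⁻¹) volume 0 T := by
    refine Continuous.intervalIntegrable ?_ _ _
    refine Continuous.mul continuous_const (Continuous.inv₀ (by fun_prop) fun x => ?_)
    positivity
  rw [P_part y h0 h1, K_eq, K_eq, h2, ← intervalIntegral.integral_const_mul, ← intervalIntegral.integral_const_mul,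
    ← intervalIntegral.integral_const_mul, ← intervalIntegral.integral_add hii ((hi y).const_mul _),
    ← intervalIntegral.integral_add (hii.add ((hi y).const_mul _)) ((hi (-y)).const_mul _)]
  refine intervalIntegral.integral_congr fun u _ => ?_
  show 2 * (Real.cos (y * u) / (1 + u ^ 2)) = (Real.exp y + Real.exp (-y)) * (1 + u ^ 2)⁻¹ +
    Real.exp (-y) * ((Real.exp y * (Real.cos (y * u) + u * Real.sin (y * u)) - 1) / (1 + u ^ 2)) +
    Real.exp y * ((Real.exp (-y) * (Real.cos (-y * u) + u * Real.sin (-y * u)) - 1) / (1 + u ^ 2))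
  have hu : (1 + u ^ 2 : ℝ) ≠ 0 := by positivity
  have e1 : Real.exp (-y) * Real.exp y = 1 := by rw [← Real.exp_add]; simp
  rw [neg_mul, Real.cos_neg, Real.sin_neg]
  field_simp
  linear_combination (-2 * Real.cos (y * u)) * e1

/-- the two letters -/
lemma word_diff (c T : ℝ) (hc : c ≠ 0) :
    II [(c * (1 + T * Complex.I) : ℂ)] 1 - II [(c * (1 - T * Complex.I) : ℂ)] 1 = 2 * Complex.I * ((K c T : ℝ) : ℂ) := by
  have hc' : (c : ℂ) ≠ 0 := by exact_mod_cast hc
  have n1 : (1 + T * Complex.I : ℂ) ≠ 0 := by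
    intro h
    have := congrArg Complex.re h
    simp at this
  have n2 : (1 - T * Complex.I : ℂ) ≠ 0 := by
    intro h
    have := congrArg Complex.re h
    simp at this
  rw [Pool.Agent.N13.SI.II_single _ (mul_ne_zero hc' n1), Pool.Agent.N13.SI.II_single _ (mul_ne_zero hc' n2),
    ← intervalIntegral.integral_sub (Pool.Agent.N13.SI.ii_exp _) (Pool.Agent.N13.SI.ii_exp _)]
  rw [K, ← intervalIntegral.integral_ofReal, ← intervalIntegral.integral_const_mul]
  refine intervalIntegral.integral_congr fun s _ => ?_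
  show (Complex.exp (c * (1 + T * Complex.I) * s) - 1) * 1 / s - (Complex.exp (c * (1 - T * Complex.I) * s) - 1) * 1 / s =
    2 * Complex.I * ((Real.exp (c * s) * Real.sin (c * T * s) / s : ℝ) : ℂ)
  have e4 : Complex.exp (c * (1 + T * Complex.I) * s) =
      Real.exp (c * s) * Complex.exp ((c * T * s : ℝ) * Complex.I) := by
    rw [Complex.ofReal_exp, ← Complex.exp_add]
    congr 1
    push_cast
    ring
  have e5 : Complex.exp (c * (1 - T * Complex.I) * s) =
      Real.exp (c * s) * Complex.exp (-((c * T * s : ℝ) * Complex.I)) := by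
    rw [Complex.ofReal_exp, ← Complex.exp_add]
    congr 1
    push_cast
    ring
  have e6 : Complex.exp ((c * T * s : ℝ) * Complex.I) - Complex.exp (-((c * T * s : ℝ) * Complex.I)) =
      2 * Complex.I * (Real.sin (c * T * s) : ℝ) := by
    rw [Complex.exp_mul_I, ← neg_mul, ← Complex.ofReal_neg, Complex.exp_mul_I, ← Complex.ofReal_cos, ← Complex.ofReal_sin,
      ← Complex.ofReal_cos, ← Complex.ofReal_sin, Real.cos_neg, Real.sin_neg]
    push_cast
    ring
  have e7 : ((Real.exp (c * s) * Real.sin (c * T * s) / s : ℝ) : ℂ) = Real.exp (c * s) * (Real.sin (c * T * s) : ℝ) / s := by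
    push_cast
    rfl
  rw [e4, e5, e7]
  calc _ = Real.exp (c * s) * (Complex.exp ((c * T * s : ℝ) * Complex.I) - Complex.exp (-((c * T * s : ℝ) * Complex.I))) / s := by ring
    _ = _ := by rw [e6]; ring

end Pool.Agent.N13.PF
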