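import Pool.Agent.N13.PF.Int

/-!
# Algebraic independence of the truncated Fourier integrals, and what it says about `π` and `π / e`
-/

set_option autoImplicit false

open Set

namespace Pool.Agent.N13.PF

open Pool.Agent.N902.EW

/-- the open first quadrant -/
def Quad : Set ℂ := {z | 0 < z.re ∧ 0 < z.im}

/-- the generators of the base field -/
def GS : Set ℂ := {z | IsAlgebraic ℚ z} ∪ {z | ∃ b : ℂ, IsAlgebraic ℚ b ∧ z = Complex.exp b} ∪
    {z | ∃ (a : ℂ) (v : List ℂ), a ∉ Quad ∧ Wd (a :: v) ∧ z = II (a :: v) 1}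

/-- the base field -/
noncomputable def FF : IntermediateField ℚ ℂ := IntermediateField.adjoin ℚ GS

/-- the names -/
def Nm : Set (ℝ × ℝ) := {p | 0 < p.1 ∧ IsAlgebraic ℚ p.1 ∧ 0 < p.2 ∧ p.2 < Real.pi / 2 ∧ IsAlgebraic ℚ (Real.tan p.2)}

/-- the letter of a name -/
noncomputable def lt (p : ℝ × ℝ) : ℂ := p.1 * (1 + (Real.tan p.2 : ℝ) * Complex.I)

/-- the conjugate letter of a name -/
noncomputable def lt' (p : ℝ × ℝ) : ℂ := p.1 * (1 - (Real.tan p.2 : ℝ) * Complex.I)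

lemma alg_I : IsAlgebraic ℚ Complex.I := by
  refine ⟨Polynomial.X ^ 2 + 1, ?_, ?_⟩
  · exact (Polynomial.monic_X_pow_add_C (1 : ℚ) two_ne_zero).ne_zero
  · simp

lemma alg_lt {p : ℝ × ℝ} (hp : p ∈ Nm) : IsAlgebraic ℚ (lt p) :=
  (hp.2.1.algebraMap (A := ℂ)).mul (isAlgebraic_one.add ((hp.2.2.2.2.algebraMap (A := ℂ)).mul alg_I))

lemma alg_lt' {p : ℝ × ℝ} (hp : p ∈ Nm) : IsAlgebraic ℚ (lt' p) :=
  (hp.2.1.algebraMap (A := ℂ)).mul (isAlgebraic_one.sub ((hp.2.2.2.2.algebraMap (A := ℂ)).mul alg_I))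

lemma re_lt (p : ℝ × ℝ) : (lt p).re = p.1 := by
  rw [lt, Complex.re_ofReal_mul]
  simp

lemma im_lt (p : ℝ × ℝ) : (lt p).im = p.1 * Real.tan p.2 := by
  rw [lt, Complex.im_ofReal_mul]
  simp [-Complex.ofReal_tan]

lemma re_lt' (p : ℝ × ℝ) : (lt' p).re = p.1 := by
  rw [lt', Complex.re_ofReal_mul]
  simp

lemma im_lt' (p : ℝ × ℝ) : (lt' p).im = -(p.1 * Real.tan p.2) := by
  rw [lt', Complex.im_ofReal_mul]
  simp [-Complex.ofReal_tan]

lemma tan_pos' {p : ℝ × ℝ} (hp : p ∈ Nm) : 0 < p.1 * Real.tan p.2 := mul_pos hp.1 (tan_pos hp.2.2.1 hp.2.2.2.1)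

lemma lt_mem_Quad {p : ℝ × ℝ} (hp : p ∈ Nm) : lt p ∈ Quad := by
  refine ⟨?_, ?_⟩
  · rw [re_lt]; exact hp.1
  · rw [im_lt]; exact tan_pos' hp

lemma lt_inj {p r : ℝ × ℝ} (hp : p ∈ Nm) (hr : r ∈ Nm) (h : lt r = lt p) : p = r := by
  have h1 := congrArg Complex.re h
  have h2 := congrArg Complex.im h
  rw [re_lt, re_lt] at h1
  rw [im_lt, im_lt, h1] at h2
  have h3 : Real.tan r.2 = Real.tan p.2 := mul_left_cancel₀ hp.1.ne' h2
  have h4 : r.2 = p.2 := by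
    rw [← Real.arctan_tan (x := r.2) (by linarith [hr.2.2.1, Real.pi_pos]) hr.2.2.2.1, h3,
      Real.arctan_tan (by linarith [hp.2.2.1, Real.pi_pos]) hp.2.2.2.1]
  exact Prod.ext h1.symm h4.symm

lemma lt_ne_zero {p : ℝ × ℝ} (hp : p ∈ Nm) : lt p ≠ 0 := by
  intro h
  have h1 := congrArg Complex.re h
  rw [re_lt, Complex.zero_re] at h1
  exact hp.1.ne' h1

lemma lt'_ne_zero {p : ℝ × ℝ} (hp : p ∈ Nm) : lt' p ≠ 0 := by
  intro h
  have h1 := congrArg Complex.re h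
  rw [re_lt', Complex.zero_re] at h1
  exact hp.1.ne' h1

lemma adm1 {a : Qb} (ha : a ≠ 0) : Adm [a] := ⟨trivial, fun _ => ha⟩

/-- the values of the one letter words are algebraically independent over the base field -/
theorem ai_J : AlgebraicIndependent FF (fun p : Nm => II [lt p.1] 1) := by
  choose b hb using fun p : Nm => mem_range_io (alg_lt p.2)
  have hb0 : ∀ p : Nm, b p ≠ 0 := fun p h => lt_ne_zero p.2 (by rw [← hb p, h, map_zero])
  have h1 := ai_general GS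
    (fun p : Nm => mk 0 [b p] (adm1 (hb0 p)))
    (fun p => DA (b p)) (fun z hz => ?_) (fun _ => mk 0 [] adm_nil) (fun p => ?_) (fun p => ?_)
    (fun p r hpr => ?_)
  · have e : (fun p : Nm => evA io (mk 0 [b p] (adm1 (hb0 p)))) =
        fun p : Nm => II [lt p.1] 1 := by
      funext p
      rw [evA_mk, evk_ex_zero, one_mul, ← II_one _ (adm1 (hb0 p))]
      simp only [List.map_cons, List.map_nil]
      rw [hb p]
    rw [e] at h1
    exact h1
  · rcases hz with (hz | ⟨c, hc, rfl⟩) | ⟨a, v, ha, hw, rfl⟩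
    · exact ⟨algebraMap Qb (AA Qb) ⟨z, mem_algebraicClosure_iff'.2 hz.isIntegral⟩, evA_algebraMap _,
        fun _ => Derivation.map_algebraMap _ _⟩
    · obtain ⟨c', rfl⟩ := mem_range_io hc
      refine ⟨mk c' [] adm_nil, ?_, fun p => DA_nil _ _ _⟩
      rw [evA_mk, U_nil, evk_one, mul_one, evk_ex]
    · obtain ⟨w, hw', hadm⟩ := exists_word hw
      rcases w with _ | ⟨a', v'⟩
      · simp at hw'
      · rw [List.map_cons, List.cons.injEq] at hw'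
        refine ⟨mk 0 (a' :: v') hadm, ?_, fun p => DA_ne (fun h => ha ?_) _ _ _⟩
        · rw [evA_mk, evk_ex_zero, one_mul, ← II_one _ hadm, List.map_cons, hw'.1, hw'.2]
        · rw [← hw'.1, h, hb p]
          exact lt_mem_Quad p.2
  · intro h
    have h3 := congrArg (evA io) h
    rw [evA_mk, evk_ex_zero, U_nil, evk_one, map_zero, mul_one] at h3
    exact one_ne_zero h3
  · rw [DA_self]
  · have n2 : b r ≠ b p := fun h => hpr (Subtype.ext (lt_inj p.2 r.2 (by rw [← hb p, ← hb r, h])))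
    rw [DA_ne n2]

lemma exp_mem_FF {b : ℂ} (hb : IsAlgebraic ℚ b) : Complex.exp b ∈ FF :=
  IntermediateField.subset_adjoin _ _ (Or.inl (Or.inr ⟨b, hb, rfl⟩))

lemma alg_mem_FF {b : ℂ} (hb : IsAlgebraic ℚ b) : b ∈ FF :=
  IntermediateField.subset_adjoin _ _ (Or.inl (Or.inl hb))

lemma wd1 {a : ℂ} (ha : IsAlgebraic ℚ a) (h0 : a ≠ 0) : Wd [a] :=
  ⟨fun b hb => by rw [List.mem_singleton.1 hb]; exact ha, fun _ => h0⟩

lemma II_mem_FF {a : ℂ} (ha : IsAlgebraic ℚ a) (h0 : a ≠ 0) (hq : a ∉ Quad) : II [a] 1 ∈ FF :=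
  IntermediateField.subset_adjoin _ _ (Or.inr ⟨a, [], hq, wd1 ha h0, rfl⟩)

lemma mem_clf_of_mem {S : Set ℂ} {z : ℂ} (hz : z ∈ FF) : z ∈ clf FF S :=
  clf_of_alg (isAlgebraic_algebraMap (⟨z, hz⟩ : FF))

/-- the value of the word in terms of the integral, the angle and the base field -/
lemma J_eq {p : ℝ × ℝ} (hp : p ∈ Nm) : II [lt p] 1 = II [lt' p] 1 + Complex.exp p.1 *
    (2 * Complex.I * (((P p.1 p.2 : ℝ) : ℂ) - (Complex.exp p.1 + Complex.exp (-p.1)) * p.2) -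
      Complex.exp p.1 * (II [-lt p] 1 - II [-lt' p] 1)) := by
  have h1 := word_diff p.1 (Real.tan p.2) hp.1.ne'
  have h2 := word_diff (-p.1) (Real.tan p.2) (neg_ne_zero.2 hp.1.ne')
  have h3 := congrArg Complex.ofReal (P_formula p.1 hp.2.2.1 hp.2.2.2.1)
  rw [Complex.ofReal_add, Complex.ofReal_add, Complex.ofReal_mul, Complex.ofReal_mul, Complex.ofReal_mul, Complex.ofReal_add,
    Complex.ofReal_exp, Complex.ofReal_exp, Complex.ofReal_neg] at h3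
  have e1 : (((-p.1 : ℝ) : ℂ) * (1 + (Real.tan p.2 : ℝ) * Complex.I) : ℂ) = -lt p := by
    rw [lt]; push_cast; ring
  have e2 : (((-p.1 : ℝ) : ℂ) * (1 - (Real.tan p.2 : ℝ) * Complex.I) : ℂ) = -lt' p := by
    rw [lt']; push_cast; ring
  rw [e1, e2] at h2
  have e3 : II [lt p] 1 - II [lt' p] 1 = 2 * Complex.I * ((K p.1 (Real.tan p.2) : ℝ) : ℂ) := h1
  have e4 : Complex.exp p.1 * Complex.exp (-p.1) = 1 := by rw [← Complex.exp_add]; simp
  rw [h3, h2]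
  linear_combination e3 - (2 * Complex.I * ((K p.1 (Real.tan p.2) : ℝ) : ℂ)) * e4

lemma J_mem {p : ℝ × ℝ} (hp : p ∈ Nm) {S : Set ℂ} (h1 : (p.2 : ℂ) ∈ clf FF S) (h2 : ((P p.1 p.2 : ℝ) : ℂ) ∈ clf FF S) :
    II [lt p] 1 ∈ clf FF S := by
  have hy : IsAlgebraic ℚ (p.1 : ℂ) := hp.2.1.algebraMap (A := ℂ)
  have c1 : Complex.exp p.1 ∈ clf FF S := mem_clf_of_mem (exp_mem_FF hy)
  have c2 : Complex.exp (-p.1) ∈ clf FF S := mem_clf_of_mem (exp_mem_FF hy.neg)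
  have c3 : (2 * Complex.I : ℂ) ∈ clf FF S := (clf FF S).mul_mem (ofNat_mem _ 2) (mem_clf_of_mem (alg_mem_FF alg_I))
  have c4 : II [lt' p] 1 ∈ clf FF S := mem_clf_of_mem (II_mem_FF (alg_lt' hp) (lt'_ne_zero hp) fun h => by
    have := h.2
    rw [im_lt'] at this
    linarith [tan_pos' hp])
  have c5 : II [-lt' p] 1 ∈ clf FF S := mem_clf_of_mem (II_mem_FF (alg_lt' hp).neg (neg_ne_zero.2 (lt'_ne_zero hp)) fun h => by
    have := h.1
    rw [Complex.neg_re, re_lt'] at this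
    linarith [hp.1])
  have c6 : II [-lt p] 1 ∈ clf FF S := mem_clf_of_mem (II_mem_FF (alg_lt hp).neg (neg_ne_zero.2 (lt_ne_zero hp)) fun h => by
    have := h.1
    rw [Complex.neg_re, re_lt] at this
    linarith [hp.1])
  rw [J_eq hp]
  exact (clf FF S).add_mem c4 ((clf FF S).mul_mem c1 ((clf FF S).sub_mem ((clf FF S).mul_mem c3
    ((clf FF S).sub_mem h2 ((clf FF S).mul_mem ((clf FF S).add_mem c1 c2) h1)))
    ((clf FF S).mul_mem c1 ((clf FF S).sub_mem c6 c5))))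

/-- the counting theorem -/
theorem count {r : ℕ} (y : Fin r → ℂ) (Θ : Set ℝ)
    (hΘ : ∀ θ ∈ Θ, IsAlgebraic (IntermediateField.adjoin FF (range y)) (θ : ℂ)) :
    {n : Fin r ⊕ {p : ℝ × ℝ // p ∈ Nm ∧ p.2 ∈ Θ} | Sum.elim (fun j => IsAlgebraic FF (y j))
      (fun p => IsAlgebraic FF ((P p.1.1 p.1.2 : ℝ) : ℂ)) n}.encard ≤ (r : ℕ∞) := by
  let f : {p : ℝ × ℝ // p ∈ Nm ∧ p.2 ∈ Θ} → Nm := fun p => ⟨p.1, p.2.1⟩
  have hf : Function.Injective f := fun p q h => Subtype.ext (congrArg (fun q : Nm => q.1) h)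
  refine count_le (ai_J.comp f hf) y (fun p => ((P p.1.1 p.1.2 : ℝ) : ℂ)) fun p => ?_
  exact J_mem p.2.1 (clf_mono (subset_insert _ _) (mem_clf.2 (hΘ _ p.2.2))) (subset_clf _ (mem_insert _ _))

/-- the transcendence degree -/
theorem trdeg {r : ℕ} (y : Fin r → ℂ) (Θ : Set ℝ)
    (hΘ : ∀ θ ∈ Θ, IsAlgebraic (IntermediateField.adjoin FF (range y)) (θ : ℂ)) (A : Finset (ℝ × ℝ))
    (hA : ∀ p ∈ A, p ∈ Nm ∧ p.2 ∈ Θ) :
    (A.card : Cardinal) ≤ Algebra.trdeg FF (IntermediateField.adjoin FF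
      (range y ∪ (fun p : ℝ × ℝ => ((P p.1 p.2 : ℝ) : ℂ)) '' (A : Set (ℝ × ℝ)))) := by
  let f : A → Nm := fun p => ⟨p.1, (hA _ p.2).1⟩
  have hf : Function.Injective f := fun p q h => Subtype.ext (congrArg (fun q : Nm => q.1) h)
  have h0 := trdeg_ge (ai_J.comp f hf)
    (A := range y ∪ (fun p : ℝ × ℝ => ((P p.1 p.2 : ℝ) : ℂ)) '' (A : Set (ℝ × ℝ))) fun p =>
      J_mem (hA _ p.2).1 (clf_mono subset_union_left (mem_clf.2 (hΘ _ (hA _ p.2).2)))
        (subset_clf _ (Or.inr ⟨p.1, p.2, rfl⟩))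
  rw [Fintype.card_coe] at h0
  exact h0

/-- if the angles are algebraic over the base field then the integrals are algebraically independent -/
theorem ai_P (Θ : Set ℝ) (hΘ : ∀ θ ∈ Θ, IsAlgebraic FF (θ : ℂ)) :
    AlgebraicIndependent FF (fun p : {p : ℝ × ℝ // p ∈ Nm ∧ p.2 ∈ Θ} => ((P p.1.1 p.1.2 : ℝ) : ℂ)) := by
  let f : {p : ℝ × ℝ // p ∈ Nm ∧ p.2 ∈ Θ} → Nm := fun p => ⟨p.1, p.2.1⟩
  have hf : Function.Injective f := fun p q h => Subtype.ext (congrArg (fun q : Nm => q.1) h)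
  refine ai_of_span (ai_J.comp f hf) _ fun p => ?_
  exact J_mem p.2.1 (clf_of_alg (hΘ _ p.2.2)) (subset_clf _ rfl)

end Pool.Agent.N13.PF
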